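import Pool.Agent.H183Z.Prim

set_option autoImplicit false

namespace Pool.Agent.Results.MP_6092f3_al.RigidDense

open Pool.Agent.H183Z

/-- For `N ≥ 2`, if a set `S` of primitive elements of `F_N` is spectrally rigid, then the closure
of the projective classes of the counting currents of the elements of `S` is all of `𝕄_N`. -/
theorem result (N : ℕ) (hN : 2 ≤ N) (S : Set (FreeGroup (Fin N)))
    (hS : ∀ g ∈ S, IsPrimitive g) (hR : RigidSet N S) : closure (classes S) = MinSet N :=
  rigid_dense hN hS hR

end Pool.Agent.Results.MP_6092f3_al.RigidDense
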